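import Pool.Agent.W591.GM.Equ
import Pool.Agent.W880.GM.Occ
import Pool.Agent.W78.GT.Basic

/-!
Project GT, part GT-2: triples in residue classes.
-/

set_option autoImplicit false

namespace Pool.Agent.W578.GT

open Finset Pool.Agent.W78.GM Pool.Agent.W880.GM Pool.Agent.W78.GT

/-! ### automorphs over a ring -/

section ring
variable {R : Type*} [CommRing R]

/-- `(v, u)` has determinant `1` and transforms `(a, b, c)` into `(g1, g2, g3)` -/
structure Sys (a b c g1 g2 g3 v1 v2 u1 u2 : R) : Prop where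
  det : v1 * u2 - v2 * u1 = 1
  e1 : a * v1 ^ 2 + b * v1 * v2 + c * v2 ^ 2 = g1
  e3 : a * u1 ^ 2 + b * u1 * u2 + c * u2 ^ 2 = g3
  e2 : 2 * a * v1 * u1 + b * (v1 * u2 + v2 * u1) + 2 * c * v2 * u2 = g2

variable {a b c g1 g2 g3 v1 v2 u1 u2 w1 w2 x1 x2 : R}

lemma Sys.i11 (h : Sys a b c g1 g2 g3 v1 v2 u1 u2) :
    2 * a * v1 + b * v2 = 2 * u2 * g1 - v2 * g2 := by
  linear_combination 2 * u2 * h.e1 - v2 * h.e2 - (2 * a * v1 + b * v2) * h.det

lemma Sys.i12 (h : Sys a b c g1 g2 g3 v1 v2 u1 u2) :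
    2 * a * u1 + b * u2 = u2 * g2 - 2 * v2 * g3 := by
  linear_combination u2 * h.e2 - 2 * v2 * h.e3 - (2 * a * u1 + b * u2) * h.det

lemma Sys.i21 (h : Sys a b c g1 g2 g3 v1 v2 u1 u2) :
    b * v1 + 2 * c * v2 = - 2 * u1 * g1 + v1 * g2 := by
  linear_combination - 2 * u1 * h.e1 + v1 * h.e2 - (b * v1 + 2 * c * v2) * h.det

lemma Sys.i22 (h : Sys a b c g1 g2 g3 v1 v2 u1 u2) :
    b * u1 + 2 * c * u2 = - u1 * g2 + 2 * v1 * g3 := by
  linear_combination - u1 * h.e2 + 2 * v1 * h.e3 - (b * u1 + 2 * c * u2) * h.det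

/-- the trace of the automorph -/
def tP (v1 _v2 u1 u2 w1 w2 x1 x2 : R) (v2' : R) : R := (v1 * x2 - u1 * w2) + (u2 * w1 - v2' * x1)

/-- the other invariant of the automorph -/
def tT (a b c v1 v2 u1 u2 w1 w2 x1 x2 : R) : R :=
  b * ((u2 * w1 - v2 * x1) - (v1 * x2 - u1 * w2)) - 2 * c * (v2 * x2 - u2 * w2) +
    2 * a * (u1 * w1 - v1 * x1)

lemma r1 (h : Sys a b c g1 g2 g3 v1 v2 u1 u2) (k : Sys a b c g1 g2 g3 w1 w2 x1 x2) :
    2 * a * (v1 * x2 - u1 * w2) + b * (v2 * x2 - u2 * w2) =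
      2 * a * (u2 * w1 - v2 * x1) - b * (v2 * x2 - u2 * w2) := by
  linear_combination x2 * h.i11 - w2 * h.i12 - u2 * k.i11 + v2 * k.i12

lemma r2 (h : Sys a b c g1 g2 g3 v1 v2 u1 u2) (k : Sys a b c g1 g2 g3 w1 w2 x1 x2) :
    2 * a * (u1 * w1 - v1 * x1) + 2 * c * (v2 * x2 - u2 * w2) = 0 := by
  linear_combination w1 * h.i12 - x1 * h.i11 - u2 * k.i21 + v2 * k.i22

lemma r3 (h : Sys a b c g1 g2 g3 v1 v2 u1 u2) (k : Sys a b c g1 g2 g3 w1 w2 x1 x2) :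
    2 * b * (u1 * w1 - v1 * x1) + 2 * c * (u2 * w1 - v2 * x1) -
      2 * c * (v1 * x2 - u1 * w2) = 0 := by
  linear_combination w1 * h.i22 - x1 * h.i21 + u1 * k.i21 - v1 * k.i22

section
variable (h2 : IsUnit (2 : R)) (hD : IsUnit (b ^ 2 - 4 * a * c))

include h2

lemma c4 (h : Sys a b c g1 g2 g3 v1 v2 u1 u2) (k : Sys a b c g1 g2 g3 w1 w2 x1 x2) :
    (b ^ 2 - 4 * a * c) * (v2 * x2 - u2 * w2) = a * tT a b c v1 v2 u1 u2 w1 w2 x1 x2 := by
  apply h2.mul_left_cancel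
  unfold tT
  linear_combination b * r1 h k - 2 * a * r2 h k

lemma c5 (h : Sys a b c g1 g2 g3 v1 v2 u1 u2) (k : Sys a b c g1 g2 g3 w1 w2 x1 x2) :
    (b ^ 2 - 4 * a * c) * (u1 * w1 - v1 * x1) = - c * tT a b c v1 v2 u1 u2 w1 w2 x1 x2 := by
  apply h2.mul_left_cancel
  unfold tT
  linear_combination b * r3 h k - 2 * c * r2 h k

lemma c23 (h : Sys a b c g1 g2 g3 v1 v2 u1 u2) (k : Sys a b c g1 g2 g3 w1 w2 x1 x2) :
    (b ^ 2 - 4 * a * c) * ((u2 * w1 - v2 * x1) - (v1 * x2 - u1 * w2)) =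
      b * tT a b c v1 v2 u1 u2 w1 w2 x1 x2 := by
  apply h2.mul_left_cancel
  unfold tT
  linear_combination 2 * c * r1 h k - 2 * a * r3 h k

include hD

lemma c1 (h : Sys a b c g1 g2 g3 v1 v2 u1 u2) (k : Sys a b c g1 g2 g3 w1 w2 x1 x2) :
    (b ^ 2 - 4 * a * c) * ((v1 * x2 - u1 * w2) + (u2 * w1 - v2 * x1)) ^ 2 -
      tT a b c v1 v2 u1 u2 w1 w2 x1 x2 ^ 2 = 4 * (b ^ 2 - 4 * a * c) := by
  apply hD.mul_left_cancel
  have hdet : (v1 * x2 - u1 * w2) * (u2 * w1 - v2 * x1) -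
      (u1 * w1 - v1 * x1) * (v2 * x2 - u2 * w2) = 1 := by
    linear_combination (w1 * x2 - w2 * x1) * h.det + k.det
  have k4 := c4 h2 h k
  have k5 := c5 h2 h k
  have k23 := c23 h2 h k
  set T := tT a b c v1 v2 u1 u2 w1 w2 x1 x2
  set al := v1 * x2 - u1 * w2
  set de := u2 * w1 - v2 * x1
  set be := u1 * w1 - v1 * x1
  set ga := v2 * x2 - u2 * w2
  linear_combination 4 * (b ^ 2 - 4 * a * c) ^ 2 * hdet +
    ((b ^ 2 - 4 * a * c) * (de - al) + b * T) * k23 +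
    4 * ((b ^ 2 - 4 * a * c) * ga) * k5 - 4 * c * T * k4

/-- the unit attached to an automorph -/
lemma unit_L {δ : R} (hδ : δ * δ = b ^ 2 - 4 * a * c)
    (h : Sys a b c g1 g2 g3 v1 v2 u1 u2) (k : Sys a b c g1 g2 g3 w1 w2 x1 x2) :
    (δ * ((v1 * x2 - u1 * w2) + (u2 * w1 - v2 * x1)) + tT a b c v1 v2 u1 u2 w1 w2 x1 x2) *
      (δ * ((v1 * x2 - u1 * w2) + (u2 * w1 - v2 * x1)) - tT a b c v1 v2 u1 u2 w1 w2 x1 x2) =
      4 * (b ^ 2 - 4 * a * c) := by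
  rw [← c1 h2 hD h k, ← hδ]
  ring

lemma inj_L {δ : R} (hδ : δ * δ = b ^ 2 - 4 * a * c) {v1' v2' u1' u2' : R}
    (h : Sys a b c g1 g2 g3 v1 v2 u1 u2) (h' : Sys a b c g1 g2 g3 v1' v2' u1' u2')
    (k : Sys a b c g1 g2 g3 w1 w2 x1 x2)
    (hL : δ * ((v1 * x2 - u1 * w2) + (u2 * w1 - v2 * x1)) + tT a b c v1 v2 u1 u2 w1 w2 x1 x2 =
      δ * ((v1' * x2 - u1' * w2) + (u2' * w1 - v2' * x1)) +
        tT a b c v1' v2' u1' u2' w1 w2 x1 x2) :
    v1 = v1' ∧ v2 = v2' ∧ u1 = u1' ∧ u2 = u2' := by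
  have hδu : IsUnit δ := by
    rw [← hδ] at hD
    exact isUnit_of_mul_isUnit_left hD
  have h44 : IsUnit (4 : R) := by
    have : (4 : R) = 2 * 2 := by norm_num
    rw [this]
    exact h2.mul h2
  have h4 : IsUnit (4 * (b ^ 2 - 4 * a * c)) := h44.mul hD
  have e := unit_L h2 hD hδ h k
  have e' := unit_L h2 hD hδ h' k
  have hu : IsUnit (δ * ((v1 * x2 - u1 * w2) + (u2 * w1 - v2 * x1)) +
      tT a b c v1 v2 u1 u2 w1 w2 x1 x2) := by
    rw [← e] at h4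
    exact isUnit_of_mul_isUnit_left h4
  rw [← hL] at e'
  have hL' := hu.mul_left_cancel (e.trans e'.symm)
  have k4 := c4 h2 h k
  have k5 := c5 h2 h k
  have k23 := c23 h2 h k
  have k4' := c4 h2 h' k
  have k5' := c5 h2 h' k
  have k23' := c23 h2 h' k
  have hT : tT a b c v1 v2 u1 u2 w1 w2 x1 x2 = tT a b c v1' v2' u1' u2' w1 w2 x1 x2 := by
    apply h2.mul_left_cancel
    linear_combination hL - hL'
  have hP : (v1 * x2 - u1 * w2) + (u2 * w1 - v2 * x1) =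
      (v1' * x2 - u1' * w2) + (u2' * w1 - v2' * x1) := by
    apply (h2.mul hδu).mul_left_cancel
    linear_combination hL + hL'
  rw [← hT] at k4' k5' k23'
  have hga := hD.mul_left_cancel (k4.trans k4'.symm)
  have hbe := hD.mul_left_cancel (k5.trans k5'.symm)
  have hdi := hD.mul_left_cancel (k23.trans k23'.symm)
  have hde : u2 * w1 - v2 * x1 = u2' * w1 - v2' * x1 := by
    apply h2.mul_left_cancel
    linear_combination hP + hdi
  have hal : v1 * x2 - u1 * w2 = v1' * x2 - u1' * w2 := by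
    apply h2.mul_left_cancel
    linear_combination hP - hdi
  have kd := k.det
  refine ⟨?_, ?_, ?_, ?_⟩
  · linear_combination w1 * hal + w2 * hbe - (v1 - v1') * kd
  · linear_combination w1 * hga + w2 * hde - (v2 - v2') * kd
  · linear_combination x1 * hal + x2 * hbe - (u1 - u1') * kd
  · linear_combination x1 * hga + x2 * hde - (u2 - u2') * kd

end

end ring

/-! ### square roots modulo prime powers -/

lemma sqrt_pow {t c : ℤ} {l : ℕ} (hl : Spl t c l) (k : ℕ) :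
    ∃ x : ℤ, ((l ^ k : ℕ) : ℤ) ∣ x ^ 2 - (t ^ 2 - 4 * c) := by
  obtain ⟨hlp, hl2, r, hr⟩ := hl
  have hp := Nat.prime_iff_prime_int.1 hlp
  have hn2 : ¬ (l : ℤ) ∣ 2 := fun h => hl2 (Dvd.dvd.mul_right h _)
  have hnD : ¬ (l : ℤ) ∣ t ^ 2 - 4 * c := fun h => hl2 (Dvd.dvd.mul_left h _)
  -- the strengthened statement
  have key : ∀ k : ℕ, ∃ x : ℤ, (l : ℤ) ^ (k + 1) ∣ x ^ 2 - (t ^ 2 - 4 * c) := by
    intro k
    induction k with
    | zero =>
      refine ⟨2 * r + t, ?_⟩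
      rw [zero_add, pow_one]
      have : (2 * r + t) ^ 2 - (t ^ 2 - 4 * c) = 4 * Qp t c r := by unfold Qp; ring
      rw [this]
      exact Dvd.dvd.mul_left hr _
    | succ k ih =>
      obtain ⟨x, m, hm⟩ := ih
      have hx : ¬ (l : ℤ) ∣ x := by
        intro h
        apply hnD
        have h1 : (l : ℤ) ∣ x ^ 2 := Dvd.dvd.pow h two_ne_zero
        have h3 : (l : ℤ) ∣ x ^ 2 - (t ^ 2 - 4 * c) := by
          rw [hm]
          exact Dvd.dvd.mul_right (dvd_pow_self _ (by omega)) _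
        have := dvd_sub h1 h3
        rwa [sub_sub_cancel] at this
      have h2x : IsCoprime (2 * x) (l : ℤ) := by
        have : ¬ (l : ℤ) ∣ 2 * x := fun h => (hp.dvd_or_dvd h).elim hn2 hx
        exact ((hp.coprime_iff_not_dvd.2 this)).symm
      obtain ⟨s, s', hs⟩ := h2x
      refine ⟨x + (l : ℤ) ^ (k + 1) * (-m * s), ?_⟩
      refine ⟨m * s' + (l : ℤ) ^ k * (m * s) ^ 2, ?_⟩
      have e : (l : ℤ) ^ (k + 1 + 1) = (l : ℤ) ^ (k + 1) * l := pow_succ _ _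
      have e' : (l : ℤ) ^ (k + 1) = (l : ℤ) ^ k * l := pow_succ _ _
      rw [e]
      have hm' : x ^ 2 = (t ^ 2 - 4 * c) + (l : ℤ) ^ (k + 1) * m := by linarith
      calc (x + (l : ℤ) ^ (k + 1) * (-m * s)) ^ 2 - (t ^ 2 - 4 * c)
          = (x ^ 2 - (t ^ 2 - 4 * c)) - (l : ℤ) ^ (k + 1) * m * (s * (2 * x)) +
            (l : ℤ) ^ (k + 1) * (l : ℤ) ^ (k + 1) * (m * s) ^ 2 := by ring
        _ = (l : ℤ) ^ (k + 1) * m - (l : ℤ) ^ (k + 1) * m * (1 - s' * l) +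
            (l : ℤ) ^ (k + 1) * ((l : ℤ) ^ k * l) * (m * s) ^ 2 := by
            rw [hm, show s * (2 * x) = 1 - s' * l by linarith]
            rw [← e']
        _ = (l : ℤ) ^ (k + 1) * l * (m * s' + (l : ℤ) ^ k * (m * s) ^ 2) := by ring
  rcases k with _ | k
  · exact ⟨0, by simp⟩
  · obtain ⟨x, hx⟩ := key k
    exact ⟨x, by push_cast; exact hx⟩

/-! ### classes of pairs -/

/-- pairs of determinant `1` transforming `(a, b, c)` into `(g1, g2, g3)` modulo `N` -/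
def SF (a b c g1 g2 g3 : ℤ) (N : ℕ) : Set (GaussianInt × GaussianInt) :=
  {e | dt e.1 e.2 = 1 ∧
    (N : ℤ) ∣ a * e.1.re ^ 2 + b * e.1.re * e.1.im + c * e.1.im ^ 2 - g1 ∧
    (N : ℤ) ∣ a * e.2.re ^ 2 + b * e.2.re * e.2.im + c * e.2.im ^ 2 - g3 ∧
    (N : ℤ) ∣ 2 * a * e.1.re * e.2.re + b * (e.1.re * e.2.im + e.1.im * e.2.re) +
      2 * c * e.1.im * e.2.im - g2}

lemma SF.sys {a b c g1 g2 g3 : ℤ} {N : ℕ} {e : GaussianInt × GaussianInt}
    (he : e ∈ SF a b c g1 g2 g3 N) :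
    Sys (a : ZMod N) (b : ZMod N) (c : ZMod N) (g1 : ZMod N) (g2 : ZMod N) (g3 : ZMod N)
      (e.1.re : ZMod N) (e.1.im : ZMod N) (e.2.re : ZMod N) (e.2.im : ZMod N) := by
  obtain ⟨h0, h1, h3, h2⟩ := he
  rw [← ZMod.intCast_zmod_eq_zero_iff_dvd] at h1 h2 h3
  push_cast at h1 h2 h3
  refine ⟨?_, sub_eq_zero.1 h1, sub_eq_zero.1 h3, sub_eq_zero.1 h2⟩
  unfold dt at h0
  have := congrArg (fun x : ℤ => (x : ZMod N)) h0
  push_cast at this
  exact this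

lemma occ_pp {t c₀ : ℤ} {l : ℕ} (hl : Spl t c₀ l) (k : ℕ) (a b c g1 g2 g3 : ℤ)
    (hdisc : b ^ 2 - 4 * a * c = t ^ 2 - 4 * c₀) :
    Occ (SF a b c g1 g2 g3 (l ^ k)) (l ^ k) (Nat.totient (l ^ k)) := by
  classical
  have hlp := hl.1
  have hl2 := hl.2.1
  have : NeZero (l ^ k) := ⟨pow_ne_zero _ hlp.ne_zero⟩
  have hp := Nat.prime_iff_prime_int.1 hlp
  have hn2 : ¬ (l : ℤ) ∣ 2 := fun h => hl2 (Dvd.dvd.mul_right h _)
  have hnD : ¬ (l : ℤ) ∣ t ^ 2 - 4 * c₀ := fun h => hl2 (Dvd.dvd.mul_left h _)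
  have hunit : ∀ z : ℤ, ¬ (l : ℤ) ∣ z → IsUnit (z : ZMod (l ^ k)) := by
    intro z hz
    rw [ZMod.coe_int_isUnit_iff_isCoprime]
    push_cast
    exact IsCoprime.pow_left (hp.coprime_iff_not_dvd.2 hz)
  have h2u : IsUnit (2 : ZMod (l ^ k)) := by
    have := hunit 2 hn2
    exact_mod_cast this
  have hDu : IsUnit ((b : ZMod (l ^ k)) ^ 2 - 4 * (a : ZMod (l ^ k)) * (c : ZMod (l ^ k))) := by
    have h := hunit _ hnD
    rw [← hdisc] at h
    push_cast at h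
    exact h
  obtain ⟨x, hx⟩ := sqrt_pow hl k
  have hδ : (x : ZMod (l ^ k)) * (x : ZMod (l ^ k)) =
      (b : ZMod (l ^ k)) ^ 2 - 4 * (a : ZMod (l ^ k)) * (c : ZMod (l ^ k)) := by
    rw [← hdisc, ← ZMod.intCast_zmod_eq_zero_iff_dvd] at hx
    push_cast at hx
    linear_combination hx
  rcases (SF a b c g1 g2 g3 (l ^ k)).eq_empty_or_nonempty with hS | ⟨e0, he0⟩
  · refine ⟨(ZMod (l ^ k))ˣ, inferInstance, fun _ => 1, (ZMod.card_units_eq_totient _).le, ?_⟩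
    intro e he
    rw [hS] at he
    exact he.elim
  · have k0 := SF.sys he0
    let L : GaussianInt × GaussianInt → ZMod (l ^ k) := fun e =>
      (x : ZMod (l ^ k)) * (((e.1.re : ZMod (l ^ k)) * (e0.2.im : ZMod (l ^ k)) -
        (e.2.re : ZMod (l ^ k)) * (e0.1.im : ZMod (l ^ k))) +
        ((e.2.im : ZMod (l ^ k)) * (e0.1.re : ZMod (l ^ k)) -
        (e.1.im : ZMod (l ^ k)) * (e0.2.re : ZMod (l ^ k)))) +
      tT (a : ZMod (l ^ k)) (b : ZMod (l ^ k)) (c : ZMod (l ^ k))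
        (e.1.re : ZMod (l ^ k)) (e.1.im : ZMod (l ^ k)) (e.2.re : ZMod (l ^ k))
        (e.2.im : ZMod (l ^ k)) (e0.1.re : ZMod (l ^ k)) (e0.1.im : ZMod (l ^ k))
        (e0.2.re : ZMod (l ^ k)) (e0.2.im : ZMod (l ^ k))
    have hLu : ∀ e ∈ SF a b c g1 g2 g3 (l ^ k), IsUnit (L e) := by
      intro e he
      have h1 := unit_L h2u hDu hδ (SF.sys he) k0
      have h4 : IsUnit (4 * ((b : ZMod (l ^ k)) ^ 2 -
          4 * (a : ZMod (l ^ k)) * (c : ZMod (l ^ k)))) := by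
        have : (4 : ZMod (l ^ k)) = 2 * 2 := by norm_num
        nth_rewrite 1 [this]
        exact (h2u.mul h2u).mul hDu
      rw [← h1] at h4
      exact isUnit_of_mul_isUnit_left h4
    refine ⟨(ZMod (l ^ k))ˣ, inferInstance,
      fun e => if h : IsUnit (L e) then h.unit else 1, (ZMod.card_units_eq_totient _).le, ?_⟩
    intro e he e' he' hee
    simp only [dif_pos (hLu e he), dif_pos (hLu e' he')] at hee
    have hL : L e = L e' := by
      have := congrArg (fun z : (ZMod (l ^ k))ˣ => (z : ZMod (l ^ k))) hee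
      simpa using this
    obtain ⟨q1, q2, q3, q4⟩ := inj_L h2u hDu hδ (SF.sys he) (SF.sys he') k0 hL
    exact ⟨dvd_sub_GI_iff.2 ⟨q1, q2⟩, dvd_sub_GI_iff.2 ⟨q3, q4⟩⟩

lemma occ_all {t c₀ : ℤ} (M : ℕ) (a b c g1 g2 g3 : ℤ)
    (hdisc : b ^ 2 - 4 * a * c = t ^ 2 - 4 * c₀) (hM : 1 ≤ M)
    (hs : ∀ p : ℕ, p.Prime → p ∣ M → Spl t c₀ p) :
    Occ (SF a b c g1 g2 g3 M) M (Nat.totient M) := by
  induction M using Nat.recOnPosPrimePosCoprime with
  | zero => omega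
  | one =>
    refine ⟨Unit, inferInstance, fun _ => (), by simp, ?_⟩
    intro e _ e' _ _
    simp
  | prime_pow p k hp hk =>
    exact occ_pp (hs p hp (dvd_pow_self p (by omega))) k a b c g1 g2 g3 hdisc
  | coprime m n hm hn hmn ihm ihn =>
    have h1 := ihm (by omega) fun p hp hpm => hs p hp (Dvd.dvd.mul_right hpm _)
    have h2 := ihn (by omega) fun p hp hpm => hs p hp (Dvd.dvd.mul_left hpm _)
    refine (h1.inter h2 hmn).mono ?_ (Nat.totient_mul hmn).ge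
    rintro e ⟨k0, k1, k3, k2⟩
    push_cast at k1 k2 k3
    exact ⟨⟨k0, (Dvd.intro _ rfl).trans k1, (Dvd.intro _ rfl).trans k3,
      (Dvd.intro _ rfl).trans k2⟩, ⟨k0, (Dvd.intro_left _ rfl).trans k1,
      (Dvd.intro_left _ rfl).trans k3, (Dvd.intro_left _ rfl).trans k2⟩⟩

/-! ### the count -/

theorem equt_of {t c : ℤ} (hrep : S_REP t c) : S_EQUT t c := by
  classical
  obtain ⟨C0, hC0, hrep⟩ := hrep
  obtain ⟨C1, hC1, hequ⟩ := Pool.Agent.W591.GM.equ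
  have hC0R : (1 : ℝ) ≤ C0 := by exact_mod_cast hC0
  refine ⟨(2 * C0 + 1) ^ 3 * (C1 * C0), by positivity, fun A => ?_⟩
  obtain ⟨X₀, hX₀⟩ := hequ A
  refine ⟨max X₀ 3, ?_⟩
  intro X X₁ X₂ M f hX h1 h2 hprod hA1 hA2 hM hMA hspl
  have hX3 : 3 ≤ X := (le_max_right _ _).trans hX
  have hXX₀ : X₀ ≤ X := (le_max_left _ _).trans hX
  have hlog : 0 ≤ Real.log X := Real.log_nonneg (by linarith)
  have hlog' : Real.log X ≤ Real.log (C0 * X) :=
    Real.log_le_log (by linarith) (by nlinarith)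
  have hlogA : Real.log X ^ A ≤ Real.log (C0 * X) ^ A := pow_le_pow_left₀ hlog hlog' A
  have hE := fun v₀ u₀ => hX₀ (C0 * X) (C0 * X₁) (C0 * X₂) M v₀ u₀ (by nlinarith) (by nlinarith)
    (by nlinarith) (by nlinarith [mul_nonneg (sq_nonneg (C0 : ℝ)) (sub_nonneg.2 hprod)])
    (by
      calc (C0 : ℝ) * X₁ ≤ C0 * (X * Real.log X ^ A) := by gcongr
        _ ≤ C0 * (X * Real.log (C0 * X) ^ A) := by gcongr
        _ = C0 * X * Real.log (C0 * X) ^ A := by ring)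
    (by
      calc (C0 : ℝ) * X₂ ≤ C0 * (X * Real.log X ^ A) := by gcongr
        _ ≤ C0 * (X * Real.log (C0 * X) ^ A) := by gcongr
        _ = C0 * X * Real.log (C0 * X) ^ A := by ring)
    hM (hMA.trans hlogA)
  set B : ℝ := C1 * (C0 * X) / (M : ℝ) ^ 3 with hB
  have hB0 : 0 ≤ B := by positivity
  -- the data attached to a triple
  have hdata : ∀ e ∈ (tri t c X₁ X₂).filter (fun e => Cg M e f),
      ∃ q : (ℤ × ℤ × ℤ) × (GaussianInt × GaussianInt),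
        (q.1.1 ∈ Finset.Icc (-(C0 : ℤ)) C0 ∧ q.1.2.1 ∈ Finset.Icc (-(C0 : ℤ)) C0 ∧
          q.1.2.2 ∈ Finset.Icc (-(C0 : ℤ)) C0) ∧
        q.1.2.1 ^ 2 - 4 * q.1.1 * q.1.2.2 = t ^ 2 - 4 * c ∧
        q.2 ∈ redge (C0 * X₁) (C0 * X₂) ∧
        q.2 ∈ SF q.1.1 q.1.2.1 q.1.2.2 f.1 (2 * f.2.1 + t) f.2.2 M ∧
        (q.1.1 * q.2.1.re ^ 2 + q.1.2.1 * q.2.1.re * q.2.1.im + q.1.2.2 * q.2.1.im ^ 2 = e.1 ∧
        q.1.1 * q.2.2.re ^ 2 + q.1.2.1 * q.2.2.re * q.2.2.im + q.1.2.2 * q.2.2.im ^ 2 = e.2.2 ∧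
        2 * q.1.1 * q.2.1.re * q.2.2.re + q.1.2.1 * (q.2.1.re * q.2.2.im + q.2.1.im * q.2.2.re) +
          2 * q.1.2.2 * q.2.1.im * q.2.2.im = 2 * e.2.1 + t) := by
    intro e he
    rw [mem_filter] at he
    obtain ⟨he, hcg1, hcg2, hcg3⟩ := he
    obtain ⟨m1, m2, m3, m4, m5, m6⟩ := mem_tri.1 he
    obtain ⟨a, b, c', v₁, v₂, u₁, u₂, ha, hb, hc', hdisc, hdet, hv, hu, k1, k3, k2⟩ :=
      hrep e.1 e.2.1 e.2.2 m1 m3 m5
    have hgcd : ∀ x y z w : ℤ, x * w - y * z = 1 → Int.gcd x y = 1 := by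
      intro x y z w h
      rw [← Int.isCoprime_iff_gcd_eq_one]
      exact ⟨w, -z, by linarith⟩
    have hball : ∀ (x y : ℤ) (N : ℕ) (Y : ℝ), Int.gcd x y = 1 → x ^ 2 + y ^ 2 ≤ C0 * N →
        (N : ℝ) ≤ Y → (⟨x, y⟩ : GaussianInt) ∈ pball (C0 * Y) := by
      intro x y N Y hg hn hY
      rw [mem_pball]
      refine ⟨hg, ?_⟩
      rw [nm_castR]
      have h5 : ((x ^ 2 + y ^ 2 : ℤ) : ℝ) ≤ ((C0 * N : ℤ) : ℝ) := by exact_mod_cast hn
      push_cast at h5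
      calc (x : ℝ) ^ 2 + (y : ℝ) ^ 2 ≤ C0 * N := h5
        _ ≤ C0 * Y := by gcongr
    have hd1 : dt (⟨v₁, v₂⟩ : GaussianInt) ⟨u₁, u₂⟩ = 1 := hdet
    refine ⟨((a, b, c'), ((⟨v₁, v₂⟩ : GaussianInt), (⟨u₁, u₂⟩ : GaussianInt))), ?_, hdisc, ?_,
      ⟨hd1, ?_, ?_, ?_⟩, k1, k3, k2⟩
    · simp only [Finset.mem_Icc]
      exact ⟨abs_le.1 ha, abs_le.1 hb, abs_le.1 hc'⟩
    · unfold redge
      rw [mem_filter, mem_product]
      exact ⟨⟨hball _ _ e.1 X₁ (hgcd v₁ v₂ u₁ u₂ hdet) hv m2,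
        hball _ _ e.2.2 X₂ (hgcd u₁ u₂ (-v₁) (-v₂) (by linarith)) hu m4⟩, hd1⟩
    · simp only
      rw [k1]
      exact hcg1
    · simp only
      rw [k3]
      exact hcg3
    · simp only
      rw [k2]
      have : 2 * e.2.1 + t - (2 * f.2.1 + t) = 2 * (e.2.1 - f.2.1) := by ring
      rw [this]
      exact Dvd.dvd.mul_left hcg2 _
  choose! Φ hΦ using hdata
  set bx : Finset (ℤ × ℤ × ℤ) := Finset.Icc (-(C0 : ℤ)) C0 ×ˢ (Finset.Icc (-(C0 : ℤ)) C0 ×ˢ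
    Finset.Icc (-(C0 : ℤ)) C0) with hbx
  have hcardbx : (bx.card : ℝ) = (2 * C0 + 1) ^ 3 := by
    rw [hbx, Finset.card_product, Finset.card_product, Int.card_Icc]
    have : ((C0 : ℤ) + 1 - -(C0 : ℤ)).toNat = 2 * C0 + 1 := by omega
    rw [this]
    push_cast
    ring
  set T := (tri t c X₁ X₂).filter (fun e => Cg M e f) with hT
  -- fibres
  have hfib : ∀ F ∈ bx, (((T.filter (fun e => (Φ e).1 = F)).card : ℕ) : ℝ) ≤
      (Nat.totient M : ℝ) * B := by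
    intro F _
    rcases (T.filter (fun e => (Φ e).1 = F)).eq_empty_or_nonempty with h5 | ⟨e₁, h5⟩
    · rw [h5]
      simp only [Finset.card_empty, Nat.cast_zero]
      positivity
    · have h6 := mem_filter.1 h5
      have hdisc : F.2.1 ^ 2 - 4 * F.1 * F.2.2 = t ^ 2 - 4 * c := by
        have := (hΦ e₁ h6.1).2.1
        rwa [h6.2] at this
      have hocc := occ_all (t := t) (c₀ := c) M F.1 F.2.1 F.2.2 f.1 (2 * f.2.1 + t) f.2.2
        hdisc hM hspl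
      have hinj : (T.filter (fun e => (Φ e).1 = F)).card =
          ((T.filter (fun e => (Φ e).1 = F)).image (fun e => (Φ e).2)).card := by
        symm
        apply Finset.card_image_of_injOn
        intro e he e' he' hee
        rw [Finset.coe_filter] at he he'
        obtain ⟨he1, he2⟩ := he
        obtain ⟨he1', he2'⟩ := he'
        obtain ⟨-, -, -, -, q1, q3, q2⟩ := hΦ e he1
        obtain ⟨-, -, -, -, q1', q3', q2'⟩ := hΦ e' he1'
        have hee' : (Φ e).2 = (Φ e').2 := hee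
        rw [he2, hee'] at q1 q3 q2
        rw [he2'] at q1' q3' q2'
        have w1 : (e.1 : ℤ) = e'.1 := q1.symm.trans q1'
        have w3 : (e.2.2 : ℤ) = e'.2.2 := q3.symm.trans q3'
        have w2 : 2 * e.2.1 + t = 2 * e'.2.1 + t := q2.symm.trans q2'
        exact Prod.ext (by exact_mod_cast w1) (Prod.ext (by linarith) (by exact_mod_cast w3))
      rw [hinj]
      refine hocc.card_le _ (redge (C0 * X₁) (C0 * X₂)) ?_ ?_ B hB0 ?_
      · intro q hq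
        rw [mem_image] at hq
        obtain ⟨e, he, rfl⟩ := hq
        exact (hΦ e (mem_filter.1 he).1).2.2.1
      · intro q hq
        rw [mem_image] at hq
        obtain ⟨e, he, rfl⟩ := hq
        have h7 := (hΦ e (mem_filter.1 he).1).2.2.2.1
        rwa [(mem_filter.1 he).2] at h7
      · intro v₀ u₀
        convert hE v₀ u₀ using 3
  have hsum := Finset.card_eq_sum_card_fiberwise (f := fun e => (Φ e).1) (s := T) (t := bx)
    (fun e he => by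
      obtain ⟨⟨k1, k2, k3⟩, -⟩ := hΦ e he
      simp only [hbx, Finset.coe_product, Set.mem_prod, Finset.mem_coe]
      exact ⟨k1, k2, k3⟩)
  have hfinal : (T.card : ℝ) ≤ (2 * C0 + 1) ^ 3 * ((Nat.totient M : ℝ) * B) := by
    rw [hsum]
    push_cast
    refine (Finset.sum_le_sum hfib).trans ?_
    rw [sum_const, nsmul_eq_mul, hcardbx]
  calc _ = (T.card : ℝ) := by rw [hT]
    _ ≤ (2 * C0 + 1) ^ 3 * ((Nat.totient M : ℝ) * B) := hfinal
    _ = _ := by rw [hB]; ring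

end Pool.Agent.W578.GT
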